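import Mathlib

set_option autoImplicit false

namespace Pool.Agent.Results.MP_3a0263_al.GoodProduct

open Module

universe u v

attribute [local instance 100] LieRing.ofAssociativeRing

/-- `ρ` is a faithful simple finite dimensional representation of `g` on `Y`. -/
def FaithfulSimple {k : Type u} {g : Type v} [Field k] [LieRing g] [LieAlgebra k g]
    {Y : Type u} [AddCommGroup Y] [Module k Y] (ρ : g →ₗ[k] Module.End k Y) : Prop :=
  FiniteDimensional k Y ∧ Nontrivial Y ∧ Function.Injective ρ ∧
    (∀ x y : g, ρ ⁅x, y⁆ = ρ x * ρ y - ρ y * ρ x) ∧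
    (∀ W : Submodule k Y, (∀ x : g, ∀ w ∈ W, ρ x w ∈ W) → W = ⊥ ∨ W = ⊤)

/-- The Richardson property: there are a finite dimensional faithful simple representation `ρ` of
`g` on a space `Y` and a complement `R` of `ρ g` in `End Y` with `[ρ g, R] ⊆ R`. -/
def Richardson (k : Type u) (g : Type v) [Field k] [LieRing g] [LieAlgebra k g] : Prop :=
  ∃ (Y : Type u) (_ : AddCommGroup Y) (_ : Module k Y) (ρ : g →ₗ[k] Module.End k Y),
    FaithfulSimple ρ ∧ ∃ R : Submodule k (Module.End k Y),
      IsCompl (LinearMap.range ρ) R ∧ ∀ x : g, ∀ r ∈ R, ρ x * r - r * ρ x ∈ R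

section general

variable {k : Type u} [Field k] {Y : Type u} [AddCommGroup Y] [Module k Y] [FiniteDimensional k Y]

/-- every functional on `End Y` is `T ↦ tr (T * C)` -/
lemma exists_trace_rep (f : Module.End k Y →ₗ[k] k) :
    ∃ C : Module.End k Y, ∀ T : Module.End k Y, f T = LinearMap.trace k Y (T * C) := by
  classical
  let b := Module.finBasis k Y
  let M := LinearMap.toMatrixAlgEquiv b
  refine ⟨M.symm (Matrix.of fun i j => f (M.symm (Matrix.single j i 1))), ?_⟩
  intro T
  have h1 : LinearMap.trace k Y (T * M.symm (Matrix.of fun i j => f (M.symm (Matrix.single j i 1))))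
      = Matrix.trace (M T * (Matrix.of fun i j => f (M.symm (Matrix.single j i 1)))) := by
    rw [LinearMap.trace_eq_matrix_trace k b]
    congr 1
    have := map_mul M T (M.symm (Matrix.of fun i j => f (M.symm (Matrix.single j i 1))))
    rw [AlgEquiv.apply_symm_apply] at this
    exact this
  rw [h1]
  have h2 : T = ∑ i, ∑ j, (M T i j) • M.symm (Matrix.single i j 1) := by
    apply M.injective
    rw [map_sum]
    simp only [map_sum, map_smul, AlgEquiv.apply_symm_apply]
    ext a c
    simp only [Matrix.sum_apply, Matrix.smul_apply, Matrix.single_apply, smul_eq_mul]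
    rw [Finset.sum_eq_single a, Finset.sum_eq_single c]
    · simp
    · intro j _ hj; simp [hj]
    · simp
    · intro i _ hi; simp [hi]
    · simp
  conv_lhs => rw [h2]
  simp only [map_sum, map_smul, smul_eq_mul, Matrix.trace, Matrix.diag, Matrix.mul_apply,
    Matrix.of_apply]

lemma trace_nondeg {A B : Module.End k Y}
    (h : ∀ T : Module.End k Y, LinearMap.trace k Y (T * A) = LinearMap.trace k Y (T * B)) :
    A = B := by
  classical
  let b := Module.finBasis k Y
  let M := LinearMap.toMatrixAlgEquiv b
  apply M.injective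
  ext i j
  have h1 := h (M.symm (Matrix.single j i 1))
  rw [LinearMap.trace_eq_matrix_trace k b, LinearMap.trace_eq_matrix_trace k b] at h1
  have e1 : ∀ C : Module.End k Y, (LinearMap.toMatrix b b) (M.symm (Matrix.single j i 1) * C)
      = Matrix.single j i 1 * M C := by
    intro C
    have := map_mul M (M.symm (Matrix.single j i 1)) C
    rw [AlgEquiv.apply_symm_apply] at this
    exact this
  rw [e1, e1] at h1
  simpa [Matrix.trace_single_mul] using h1

/-- The dimension of an invariant direct summand of `End Y` is a multiple of `dim Y` in `k`. -/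
lemma dim_summand {g : Type v} {V : Type u} [AddCommGroup V] [Module k V] [FiniteDimensional k V]
    (ρ : g → Module.End k Y) (α : g → Module.End k V) (ι : V →ₗ[k] Module.End k Y)
    (φ : Module.End k Y →ₗ[k] V)
    (hι : ∀ x v, ι (α x v) = ρ x * ι v - ι v * ρ x)
    (hφ : ∀ x T, φ (ρ x * T - T * ρ x) = α x (φ T))
    (hid : ∀ v, φ (ι v) = v)
    (schur : ∀ T : Module.End k Y, (∀ x, ρ x * T = T * ρ x) → ∃ c : k, T = c • 1) :
    ∃ c : k, (finrank k V : k) = c * (finrank k Y : k) := by
  classical
  let v := Module.finBasis k V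
  choose C hC using fun i => exists_trace_rep ((v.coord i) ∘ₗ φ)
  let Ω : Module.End k Y := ∑ i, ι (v i) * C i
  -- trace of Ω
  have htr : LinearMap.trace k Y Ω = (finrank k V : k) := by
    simp only [Ω, map_sum]
    rw [Finset.sum_congr rfl (fun i _ => (hC i (ι (v i))).symm)]
    simp [hid]
  -- Ω commutes with ρ
  have hcomm : ∀ x, ρ x * Ω = Ω * ρ x := by
    intro x
    let a : Fin (finrank k V) → Fin (finrank k V) → k := fun i l => v.coord i (α x (v l))
    have e1 : ∀ i, ρ x * ι (v i) - ι (v i) * ρ x = ∑ l, a l i • ι (v l) := by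
      intro i
      rw [← hι]
      conv_lhs => rw [← v.sum_repr (α x (v i))]
      rw [map_sum]
      exact Finset.sum_congr rfl (fun l _ => by rw [map_smul]; rfl)
    have e2 : ∀ i, ρ x * C i - C i * ρ x = - ∑ l, a i l • C l := by
      intro i
      apply trace_nondeg
      intro T
      have t1 : LinearMap.trace k Y (T * (ρ x * C i - C i * ρ x)) =
          - LinearMap.trace k Y ((ρ x * T - T * ρ x) * C i) := by
        rw [mul_sub, sub_mul, map_sub, map_sub, ← mul_assoc, ← mul_assoc,
          LinearMap.trace_mul_cycle k T (C i) (ρ x)]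
        simp only [mul_assoc]
        ring
      rw [t1, ← hC i]
      simp only [LinearMap.comp_apply]
      rw [hφ]
      conv_lhs => rw [← v.sum_repr (φ T)]
      simp only [map_sum, map_smul, smul_eq_mul, mul_neg, Finset.mul_sum, map_neg, mul_smul_comm]
      congr 1
      apply Finset.sum_congr rfl
      intro l _
      rw [← hC l]
      simp [a, mul_comm]
    have e3 : ρ x * Ω - Ω * ρ x = 0 := by
      have : ρ x * Ω - Ω * ρ x =
          ∑ i, ((ρ x * ι (v i) - ι (v i) * ρ x) * C i + ι (v i) * (ρ x * C i - C i * ρ x)) := by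
        simp only [Ω, Finset.mul_sum, Finset.sum_mul, ← Finset.sum_sub_distrib]
        apply Finset.sum_congr rfl
        intro i _
        noncomm_ring
      rw [this]
      simp only [e1, e2, Finset.sum_add_distrib, mul_neg, Finset.sum_mul, Finset.mul_sum,
        Finset.sum_neg_distrib, smul_mul_assoc, mul_smul_comm]
      rw [Finset.sum_comm, add_neg_cancel]
    exact sub_eq_zero.1 e3
  obtain ⟨c, hc⟩ := schur Ω hcomm
  refine ⟨c, ?_⟩
  rw [← htr, hc, map_smul, LinearMap.trace_one, smul_eq_mul]

/-- Schur's lemma -/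
lemma schur_lemma {g : Type v} [IsAlgClosed k] [Nontrivial Y] (ρ : g → Module.End k Y)
    (hs : ∀ W : Submodule k Y, (∀ x : g, ∀ w ∈ W, ρ x w ∈ W) → W = ⊥ ∨ W = ⊤)
    (T : Module.End k Y) (hT : ∀ x, ρ x * T = T * ρ x) : ∃ c : k, T = c • 1 := by
  obtain ⟨c, hc⟩ := Module.End.exists_eigenvalue T
  refine ⟨c, ?_⟩
  rcases hs (Module.End.eigenspace T c) (by
    intro x w hw
    rw [Module.End.mem_eigenspace_iff] at hw ⊢
    have := congrArg (fun f : Module.End k Y => f w) (hT x)
    simp only [Module.End.mul_apply] at this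
    rw [← this, hw, map_smul]) with h | h
  · exact absurd h hc
  · ext w
    have : w ∈ Module.End.eigenspace T c := by rw [h]; trivial
    rw [Module.End.mem_eigenspace_iff] at this
    simpa using this

end general

/-- If `g` has the Richardson property and `dim g ≠ 0` in `k`, then no nonzero central element is
a commutator. -/
theorem obstruction {k : Type u} {g : Type u} [Field k] [IsAlgClosed k] [LieRing g]
    [LieAlgebra k g] [FiniteDimensional k g] (hR : Richardson k g) (hd : (finrank k g : k) ≠ 0)
    (a b : g) (hz : ∀ x : g, ⁅x, ⁅a, b⁆⁆ = 0) : ⁅a, b⁆ = 0 := by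
  obtain ⟨Y, i1, i2, ρ, ⟨i3, hnt, hinj, hρ, hs⟩, R, hRc, hRs⟩ := hR
  -- the projection onto `ρ g` along `R`, followed by the inverse of `ρ`
  let e := LinearEquiv.ofInjective ρ hinj
  let π := Submodule.projectionOnto (LinearMap.range ρ) R hRc
  let φ : Module.End k Y →ₗ[k] g := e.symm.toLinearMap ∘ₗ π
  have hid : ∀ v, φ (ρ v) = v := by
    intro v
    have h1 : π (ρ v) = e v := by
      have := Submodule.projectionOnto_apply_left hRc (e v)
      exact this
    show e.symm (π (ρ v)) = v
    rw [h1, LinearEquiv.symm_apply_apply]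
  have hker : ∀ r ∈ R, φ r = 0 := by
    intro r hr
    show e.symm (π r) = 0
    have : π r = 0 := (Submodule.projectionOnto_apply_eq_zero_iff hRc).2 hr
    rw [this, map_zero]
  have hφ : ∀ x T, φ (ρ x * T - T * ρ x) = ⁅x, φ T⁆ := by
    intro x T
    have hT : T ∈ LinearMap.range ρ ⊔ R := by rw [hRc.sup_eq_top]; trivial
    obtain ⟨t, ⟨y, rfl⟩, r, hr, rfl⟩ := Submodule.mem_sup.1 hT
    have e1 : ρ x * (ρ y + r) - (ρ y + r) * ρ x = ρ ⁅x, y⁆ + (ρ x * r - r * ρ x) := by
      rw [hρ]; noncomm_ring
    rw [e1, map_add, map_add, hid, hid, hker _ (hRs x r hr), hker r hr, add_zero, add_zero]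
  have hschur : ∀ T : Module.End k Y, (∀ x, ρ x * T = T * ρ x) → ∃ c : k, T = c • 1 :=
    fun T hT => schur_lemma (fun x => ρ x) hs T hT
  obtain ⟨c, hc⟩ := dim_summand (V := g) (fun x => ρ x)
    (fun x => (LieModule.toEnd k g g x : Module.End k g)) ρ φ
    (fun x v => by simp [hρ]) (fun x T => by simpa using hφ x T) hid hschur
  have hY : (finrank k Y : k) ≠ 0 := by
    intro h
    rw [h, mul_zero] at hc
    exact hd hc
  obtain ⟨l, hl⟩ := hschur (ρ ⁅a, b⁆) (fun x => by
    have := hρ x ⁅a, b⁆
    rw [hz x, map_zero] at this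
    exact sub_eq_zero.1 this.symm)
  have htr : LinearMap.trace k Y (ρ ⁅a, b⁆) = 0 := by
    rw [hρ, map_sub, LinearMap.trace_mul_comm, sub_self]
  rw [hl, map_smul, LinearMap.trace_one, smul_eq_mul] at htr
  have hl0 : l = 0 := (mul_eq_zero.1 htr).resolve_right hY
  rw [hl0, zero_smul] at hl
  exact hinj (by rw [hl, map_zero])

section sl

variable {k : Type u} [Field k] {n : ℕ}

/-- the matrix with entries `j` at `(j-1, j)` -/
def dm (k : Type u) [Field k] (n : ℕ) : Matrix (Fin n) (Fin n) k :=
  Matrix.of fun i j => if (i : ℕ) + 1 = (j : ℕ) then ((j : ℕ) : k) else 0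

/-- the matrix with entries `1` at `(j+1, j)` -/
def xm (k : Type u) [Field k] (n : ℕ) : Matrix (Fin n) (Fin n) k :=
  Matrix.of fun i j => if (j : ℕ) + 1 = (i : ℕ) then 1 else 0

lemma dm_trace : Matrix.trace (dm k n) = 0 := by
  simp [Matrix.trace, dm]

lemma xm_trace : Matrix.trace (xm k n) = 0 := by
  simp [Matrix.trace, xm]

lemma dm_xm (hn : (n : k) = 0) : dm k n * xm k n - xm k n * dm k n = 1 := by
  ext i j
  have h1 : (dm k n * xm k n) i j = if i = j then
      (if (j : ℕ) + 1 < n then (((j : ℕ) + 1 : ℕ) : k) else 0) else 0 := by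
    rw [Matrix.mul_apply]
    simp only [dm, xm, Matrix.of_apply, mul_ite, mul_one, mul_zero]
    by_cases hj : (j : ℕ) + 1 < n
    · rw [Finset.sum_eq_single (⟨(j : ℕ) + 1, hj⟩ : Fin n)]
      · simp only [hj, if_true]
        by_cases hij : i = j
        · simp [hij]
        · have : ¬ ((i : ℕ) = (j : ℕ)) := fun h => hij (Fin.ext h)
          simp [hij, this]
      · intro l _ hl
        have : ¬ ((j : ℕ) + 1 = (l : ℕ)) := fun h => hl (Fin.ext h.symm)
        simp [this]
      · simp
    · simp only [hj, if_false, ite_self]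
      apply Finset.sum_eq_zero
      intro l _
      have : ¬ ((j : ℕ) + 1 = (l : ℕ)) := fun h => hj (h ▸ l.2)
      simp [this]
  have h2 : (xm k n * dm k n) i j = if i = j then ((j : ℕ) : k) else 0 := by
    rw [Matrix.mul_apply]
    simp only [dm, xm, Matrix.of_apply, ite_mul, one_mul, zero_mul]
    by_cases hi : (i : ℕ) = 0
    · have h3 : ∀ l : Fin n, ¬ ((l : ℕ) + 1 = (i : ℕ)) := fun l h => by omega
      simp only [h3, if_false, Finset.sum_const_zero]
      by_cases hij : i = j
      · subst hij; simp [hi]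
      · simp [hij]
    · have hi' : (i : ℕ) - 1 < n := by have := i.2; omega
      rw [Finset.sum_eq_single (⟨(i : ℕ) - 1, hi'⟩ : Fin n)]
      · have h4 : (i : ℕ) - 1 + 1 = (i : ℕ) := by omega
        simp only [h4, if_true]
        by_cases hij : i = j
        · simp [hij]
        · have : ¬ ((i : ℕ) = (j : ℕ)) := fun h => hij (Fin.ext h)
          simp [hij, this]
      · intro l _ hl
        have : ¬ ((l : ℕ) + 1 = (i : ℕ)) := fun h => hl (Fin.ext (by simp; omega))
        simp [this]
      · simp
  rw [Matrix.sub_apply, h1, h2, Matrix.one_apply]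
  by_cases hij : i = j
  · simp only [hij, if_true]
    by_cases hj : (j : ℕ) + 1 < n
    · simp [hj]
    · have hj' : (j : ℕ) + 1 = n := by have := j.2; omega
      have : ((j : ℕ) : k) + 1 = 0 := by
        have h5 := congrArg (Nat.cast : ℕ → k) hj'
        push_cast at h5
        rw [h5, hn]
      simp only [hj, if_false]
      linear_combination -this
  · simp [hij]

open LieAlgebra.SpecialLinear in
lemma mem_sl_iff (A : Matrix (Fin n) (Fin n) k) : A ∈ sl (Fin n) k ↔ Matrix.trace A = 0 := Iff.rfl

open LieAlgebra.SpecialLinear in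
lemma finrank_sl (hn : 0 < n) : finrank k (sl (Fin n) k) + 1 = n * n := by
  have h1 := LinearMap.finrank_range_add_finrank_ker (Matrix.traceLinearMap (Fin n) k k)
  have h2 : LinearMap.range (Matrix.traceLinearMap (Fin n) k k) = ⊤ := by
    rw [LinearMap.range_eq_top]
    intro c
    refine ⟨Matrix.single ⟨0, hn⟩ ⟨0, hn⟩ c, ?_⟩
    simp [Matrix.traceLinearMap_apply]
  rw [h2, finrank_top, Module.finrank_self, Module.finrank_matrix] at h1
  simp only [Fintype.card_fin, Module.finrank_self, mul_one] at h1
  have h3 : finrank k (sl (Fin n) k) =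
      finrank k (LinearMap.ker (Matrix.traceLinearMap (Fin n) k k)) := rfl
  rw [h3]
  omega

open LieAlgebra.SpecialLinear in
/-- `sl_n` has the Richardson property (natural representation) when `n ≠ 0` in `k`. -/
theorem richardson_sl (hn0 : (n : k) ≠ 0) : Richardson k (sl (Fin n) k) := by
  classical
  have hn : 0 < n := Nat.pos_of_ne_zero (fun h => hn0 (by rw [h]; simp))
  let ρ : sl (Fin n) k →ₗ[k] Module.End k (Fin n → k) :=
    (Matrix.toLin' : Matrix (Fin n) (Fin n) k ≃ₗ[k] _).toLinearMap ∘ₗ
      (LinearMap.ker (Matrix.traceLinearMap (Fin n) k k)).subtype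
  have hρ : ∀ x : sl (Fin n) k, ρ x = Matrix.toLin' (x : Matrix (Fin n) (Fin n) k) := fun _ => rfl
  refine ⟨Fin n → k, inferInstance, inferInstance, ρ, ⟨inferInstance, ?_, ?_, ?_, ?_⟩,
    Submodule.span k {1}, ?_, ?_⟩
  · have : Nonempty (Fin n) := ⟨⟨0, hn⟩⟩
    infer_instance
  · intro x y h
    rw [hρ, hρ] at h
    exact Subtype.ext (Matrix.toLin'.injective h)
  · intro x y
    rw [hρ, hρ, hρ]
    have h1 : ((⁅x, y⁆ : sl (Fin n) k) : Matrix (Fin n) (Fin n) k)
      = (x : Matrix (Fin n) (Fin n) k) * y - (y : Matrix (Fin n) (Fin n) k) * x := rfl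
    rw [h1, map_sub, Matrix.toLin'_mul, Matrix.toLin'_mul]
    rfl
  · intro W hW
    by_cases hbot : W = ⊥
    · exact Or.inl hbot
    · right
      obtain ⟨w, hw, hw0⟩ := Submodule.exists_mem_ne_zero_of_ne_bot hbot
      obtain ⟨j, hj⟩ : ∃ j, w j ≠ 0 := by
        by_contra hcon
        push Not at hcon
        exact hw0 (funext hcon)
      have h1 : ∀ i, i ≠ j → Pi.single i (1 : k) ∈ W := by
        intro i hij
        have hm : Matrix.single i j (1 : k) ∈ sl (Fin n) k := by
          rw [mem_sl_iff]
          simp [Matrix.trace_single_eq_of_ne i j _ hij]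
        have h2 := hW ⟨_, hm⟩ w hw
        rw [hρ] at h2
        have h3 : (Matrix.toLin' (Matrix.single i j (1 : k))) w = w j • Pi.single i (1 : k) := by
          ext l
          simp only [Matrix.toLin'_apply, Matrix.mulVec, dotProduct, Matrix.single_apply,
            Pi.smul_apply, Pi.single_apply, smul_eq_mul]
          rw [Finset.sum_eq_single j]
          · by_cases hl : i = l
            · simp [hl]
            · simp [hl, Ne.symm hl]
          · intro m _ hm'
            simp [Ne.symm hm']
          · simp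
        rw [h3] at h2
        have h4 := W.smul_mem (w j)⁻¹ h2
        rwa [smul_smul, inv_mul_cancel₀ hj, one_smul] at h4
      have h5 : Pi.single j (1 : k) ∈ W := by
        have h6 : w = ∑ i, w i • Pi.single i (1 : k) := by
          ext l
          simp [Finset.sum_apply, Pi.single_apply]
        rw [← Finset.add_sum_erase _ _ (Finset.mem_univ j)] at h6
        have h7 : w j • Pi.single j (1 : k) ∈ W := by
          have h8 : w j • Pi.single j (1 : k) =
              w - ∑ i ∈ Finset.univ.erase j, w i • Pi.single i (1 : k) := by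
            rw [eq_sub_iff_add_eq]; exact h6.symm
          rw [h8]
          apply W.sub_mem hw
          apply W.sum_mem
          intro i hi
          exact W.smul_mem _ (h1 i (Finset.ne_of_mem_erase hi))
        have h9 := W.smul_mem (w j)⁻¹ h7
        rwa [smul_smul, inv_mul_cancel₀ hj, one_smul] at h9
      rw [eq_top_iff]
      intro y _
      have h6 : y = ∑ i, y i • Pi.single i (1 : k) := by
        ext l
        simp [Finset.sum_apply, Pi.single_apply]
      rw [h6]
      apply W.sum_mem
      intro i _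
      apply W.smul_mem
      by_cases hij : i = j
      · rw [hij]; exact h5
      · exact h1 i hij
  · constructor
    · rw [Submodule.disjoint_def]
      rintro T ⟨x, rfl⟩ hT
      obtain ⟨c, hc⟩ := Submodule.mem_span_singleton.1 hT
      rw [hρ] at hc ⊢
      have h1 : (x : Matrix (Fin n) (Fin n) k) = c • (1 : Matrix (Fin n) (Fin n) k) := by
        apply Matrix.toLin'.injective
        rw [← hc, map_smul, Matrix.toLin'_one]
        rfl
      have h2 : Matrix.trace (x : Matrix (Fin n) (Fin n) k) = 0 := x.2
      rw [h1, Matrix.trace_smul, Matrix.trace_one, Fintype.card_fin, smul_eq_mul] at h2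
      have h3 : c = 0 := (mul_eq_zero.1 h2).resolve_right hn0
      rw [h1, h3, zero_smul, map_zero]
    · rw [codisjoint_iff, eq_top_iff]
      intro T _
      obtain ⟨M, rfl⟩ := Matrix.toLin'.surjective T
      have hm : M - (Matrix.trace M / (n : k)) • (1 : Matrix (Fin n) (Fin n) k) ∈ sl (Fin n) k := by
        rw [mem_sl_iff, Matrix.trace_sub, Matrix.trace_smul, Matrix.trace_one, Fintype.card_fin,
          smul_eq_mul, div_mul_cancel₀ _ hn0, sub_self]
      rw [Submodule.mem_sup]
      refine ⟨ρ ⟨_, hm⟩, ⟨_, rfl⟩, (Matrix.trace M / (n : k)) • 1,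
        Submodule.smul_mem _ _ (Submodule.mem_span_singleton_self _), ?_⟩
      rw [hρ, map_sub, map_smul, Matrix.toLin'_one]
      exact sub_add_cancel _ _
  · intro x r hr
    obtain ⟨c, rfl⟩ := Submodule.mem_span_singleton.1 hr
    have : ρ x * c • (1 : Module.End k (Fin n → k)) - c • (1 : Module.End k (Fin n → k)) * ρ x
        = 0 := by
      rw [mul_smul_comm, smul_mul_assoc, mul_one, one_mul, sub_self]
    rw [this]
    exact Submodule.zero_mem _


/-- the zero-complement case: `gl_n` has the Richardson property -/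
theorem richardson_gl (hn : 0 < n) : Richardson k (Matrix (Fin n) (Fin n) k) := by
  have hne : Nonempty (Fin n) := ⟨⟨0, hn⟩⟩
  let ρ : Matrix (Fin n) (Fin n) k →ₗ[k] Module.End k (Fin n → k) :=
    (Matrix.toLin' : Matrix (Fin n) (Fin n) k ≃ₗ[k] _).toLinearMap
  have hsurj : Function.Surjective ρ := Matrix.toLin'.surjective
  refine ⟨Fin n → k, inferInstance, inferInstance, ρ, ⟨inferInstance, inferInstance,
    Matrix.toLin'.injective, ?_, ?_⟩, ⊥, ?_, ?_⟩
  · intro x y
    have h1 : ⁅x, y⁆ = x * y - y * x := rfl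
    rw [h1, map_sub]
    show Matrix.toLin' (x * y) - Matrix.toLin' (y * x) = _
    rw [Matrix.toLin'_mul, Matrix.toLin'_mul]
    rfl
  · intro W hW
    by_cases hbot : W = ⊥
    · exact Or.inl hbot
    · right
      obtain ⟨w, hw, hw0⟩ := Submodule.exists_mem_ne_zero_of_ne_bot hbot
      rw [eq_top_iff]
      intro y _
      obtain ⟨j, hj⟩ : ∃ j, w j ≠ 0 := by
        by_contra hcon
        push Not at hcon
        exact hw0 (funext hcon)
      have h1 := hW (Matrix.of fun a b => if b = j then y a / w j else 0) w hw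
      have h2 : ρ (Matrix.of fun a b => if b = j then y a / w j else 0) w = y := by
        show (Matrix.toLin' _) w = y
        ext a
        simp only [Matrix.toLin'_apply, Matrix.mulVec, dotProduct, Matrix.of_apply, ite_mul,
          zero_mul]
        rw [Finset.sum_ite_eq' Finset.univ j]
        simp [hj]
      rw [h2] at h1
      exact h1
  · rw [LinearMap.range_eq_top.2 hsurj]
    exact isCompl_top_bot
  · intro x r hr
    rw [Submodule.mem_bot] at hr
    subst hr
    simp

/-- a commutator equal to the identity obstructs the Richardson property of `gl_n × g'` -/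
theorem not_richardson_prod [IsAlgClosed k] (hn : 0 < n) (hn0 : (n : k) = 0)
    (g' : Type u) [LieRing g'] [LieAlgebra k g'] [FiniteDimensional k g']
    (hg : (finrank k g' : k) ≠ 0) :
    ¬ Richardson k (Matrix (Fin n) (Fin n) k × g') := by
  intro hR
  have hd : (finrank k (Matrix (Fin n) (Fin n) k × g') : k) ≠ 0 := by
    rw [Module.finrank_prod, Module.finrank_matrix]
    push_cast
    simp only [Fintype.card_fin, hn0, zero_mul, zero_add]
    exact hg
  have h1 : (⁅dm k n, xm k n⁆ : Matrix (Fin n) (Fin n) k) = 1 := dm_xm hn0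
  have h0 := obstruction hR hd (dm k n, 0) (xm k n, 0) (by
    rintro ⟨x, y⟩
    rw [LieAlgebra.Prod.bracket_apply, LieAlgebra.Prod.bracket_apply]
    show ((⁅x, ⁅dm k n, xm k n⁆⁆ : Matrix (Fin n) (Fin n) k), (⁅y, ⁅(0 : g'), 0⁆⁆ : g')) = 0
    rw [h1]
    have h2 : (⁅x, (1 : Matrix (Fin n) (Fin n) k)⁆ : Matrix (Fin n) (Fin n) k)
        = x * 1 - 1 * x := rfl
    rw [h2]
    simp)
  have h3 := congrArg Prod.fst h0
  rw [LieAlgebra.Prod.bracket_apply] at h3
  change (⁅dm k n, xm k n⁆ : Matrix (Fin n) (Fin n) k) = 0 at h3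
  rw [h1] at h3
  have := congrFun (congrFun h3 ⟨0, hn⟩) ⟨0, hn⟩
  simp at this

open LieAlgebra.SpecialLinear in
/-- the representation of `gl_n × sl_m` on `n × m` matrices -/
def tens (k : Type u) [Field k] (n m : ℕ) :
    (Matrix (Fin n) (Fin n) k × sl (Fin m) k) →ₗ[k] Module.End k (Matrix (Fin n) (Fin m) k) :=
  LinearMap.mk₂ k (fun x X => x.1 * X - X * (x.2 : Matrix (Fin m) (Fin m) k))
    (by
      intro x y X
      show (x.1 + y.1) * X - X * ((x.2 : Matrix (Fin m) (Fin m) k)
        + (y.2 : Matrix (Fin m) (Fin m) k)) = _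
      rw [Matrix.add_mul, Matrix.mul_add]
      abel)
    (by
      intro c x X
      show (c • x.1) * X - X * (c • (x.2 : Matrix (Fin m) (Fin m) k)) = _
      rw [Matrix.smul_mul, Matrix.mul_smul, smul_sub])
    (by
      intro x X Y
      rw [Matrix.mul_add, Matrix.add_mul]
      abel)
    (by
      intro c x X
      rw [Matrix.mul_smul, Matrix.smul_mul, smul_sub])

open LieAlgebra.SpecialLinear in
lemma tens_apply {m : ℕ} (x : Matrix (Fin n) (Fin n) k × sl (Fin m) k)
    (X : Matrix (Fin n) (Fin m) k) :
    tens k n m x X = x.1 * X - X * (x.2 : Matrix (Fin m) (Fin m) k) := rfl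

open LieAlgebra.SpecialLinear in
theorem tens_faithfulSimple {m : ℕ} (hn : 0 < n) (hm : 2 ≤ m) (hm0 : (m : k) ≠ 0) :
    FaithfulSimple (tens k n m) := by
  classical
  have hne : Nonempty (Fin n) := ⟨⟨0, hn⟩⟩
  have hne' : Nonempty (Fin m) := ⟨⟨0, by omega⟩⟩
  refine ⟨inferInstance, inferInstance, ?_, ?_, ?_⟩
  · rw [← LinearMap.ker_eq_bot, LinearMap.ker_eq_bot']
    rintro ⟨A, B⟩ h
    have h1 : ∀ X : Matrix (Fin n) (Fin m) k, A * X = X * (B : Matrix (Fin m) (Fin m) k) := by
      intro X
      have := congrArg (fun f : Module.End k (Matrix (Fin n) (Fin m) k) => f X) h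
      exact sub_eq_zero.1 this
    have h2 : ∀ (x a : Fin n) (b y : Fin m),
        (if b = y then A x a else 0) = (if x = a then (B : Matrix (Fin m) (Fin m) k) b y else 0) := by
      intro x a b y
      have := congrFun (congrFun (h1 (Matrix.single a b 1)) x) y
      rw [Matrix.mul_apply, Matrix.mul_apply] at this
      simp only [Matrix.single_apply] at this
      rw [Finset.sum_eq_single a, Finset.sum_eq_single b] at this
      · simp only [true_and, and_true, mul_ite, mul_one, mul_zero, ite_mul, one_mul, zero_mul]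
          at this
        rw [this]
        by_cases hxa : x = a
        · simp [hxa]
        · simp [hxa, Ne.symm hxa]
      · intro c _ hc
        simp [Ne.symm hc]
      · simp
      · intro c _ hc
        simp [Ne.symm hc]
      · simp
    obtain ⟨b0⟩ := hne'
    obtain ⟨a0⟩ := hne
    have h3 : (B : Matrix (Fin m) (Fin m) k) = A a0 a0 • (1 : Matrix (Fin m) (Fin m) k) := by
      ext b y
      have := h2 a0 a0 b y
      simp only [if_true] at this
      rw [← this, Matrix.smul_apply, Matrix.one_apply]
      simp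
    have h4 : Matrix.trace (B : Matrix (Fin m) (Fin m) k) = 0 := (mem_sl_iff _).1 B.2
    rw [h3, Matrix.trace_smul, Matrix.trace_one, Fintype.card_fin, smul_eq_mul] at h4
    have h5 : A a0 a0 = 0 := (mul_eq_zero.1 h4).resolve_right hm0
    rw [h5, zero_smul] at h3
    have h6 : A = 0 := by
      ext x a
      have := h2 x a b0 b0
      rw [h3] at this
      simpa using this
    exact Prod.ext h6 (Subtype.ext h3)
  · rintro ⟨A, B⟩ ⟨A', B'⟩
    ext1 X
    have e1 : tens k n m ⁅(A, B), (A', B')⁆ X = (A * A' - A' * A) * X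
        - X * ((B : Matrix (Fin m) (Fin m) k) * (B' : Matrix (Fin m) (Fin m) k)
          - (B' : Matrix (Fin m) (Fin m) k) * (B : Matrix (Fin m) (Fin m) k)) := rfl
    have e2 : (tens k n m (A, B) * tens k n m (A', B') - tens k n m (A', B') * tens k n m (A, B)) X
        = (A * (A' * X - X * (B' : Matrix (Fin m) (Fin m) k))
            - (A' * X - X * (B' : Matrix (Fin m) (Fin m) k)) * (B : Matrix (Fin m) (Fin m) k))
          - (A' * (A * X - X * (B : Matrix (Fin m) (Fin m) k))
            - (A * X - X * (B : Matrix (Fin m) (Fin m) k)) * (B' : Matrix (Fin m) (Fin m) k)) := rfl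
    rw [e1, e2]
    simp only [Matrix.mul_sub, Matrix.sub_mul, Matrix.mul_assoc]
    abel
  · intro W hW
    by_cases hbot : W = ⊥
    · exact Or.inl hbot
    · right
      obtain ⟨X, hX, hX0⟩ := Submodule.exists_mem_ne_zero_of_ne_bot hbot
      obtain ⟨i, j, hij⟩ : ∃ i j, X i j ≠ 0 := by
        by_contra hcon
        push Not at hcon
        exact hX0 (by ext i j; simpa using hcon i j)
      have key : ∀ (a : Fin n) (b : Fin m), b ≠ j → Matrix.single a b (1 : k) ∈ W := by
        intro a b hb
        have hm' : Matrix.single j b (1 : k) ∈ sl (Fin m) k := by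
          rw [mem_sl_iff]
          simp [Matrix.trace_single_eq_of_ne j b _ (Ne.symm hb)]
        have h1 := hW (Matrix.single a i 1, 0) X hX
        have h2 := hW (0, ⟨_, hm'⟩) _ h1
        rw [tens_apply, tens_apply] at h2
        have h3 : (0 : Matrix (Fin n) (Fin n) k) * (Matrix.single a i (1 : k) * X
              - X * ((0 : sl (Fin m) k) : Matrix (Fin m) (Fin m) k))
            - (Matrix.single a i (1 : k) * X - X * ((0 : sl (Fin m) k) : Matrix (Fin m) (Fin m) k))
              * Matrix.single j b (1 : k) = (- X i j) • Matrix.single a b (1 : k) := by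
          have h4 : ((0 : sl (Fin m) k) : Matrix (Fin m) (Fin m) k) = 0 := rfl
          rw [h4, Matrix.mul_zero, sub_zero, Matrix.zero_mul, zero_sub, neg_smul]
          congr 1
          ext x y
          rw [Matrix.mul_apply]
          simp only [Matrix.single_apply, Matrix.smul_apply, smul_eq_mul]
          rw [Finset.sum_eq_single j]
          · rw [Matrix.mul_apply, Finset.sum_eq_single i]
            · by_cases h5 : a = x <;> by_cases h6 : b = y <;> simp [h5, h6]
            · intro c _ hc
              simp [Ne.symm hc]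
            · simp
          · intro c _ hc
            simp [Ne.symm hc]
          · simp
        change (0 : Matrix (Fin n) (Fin n) k) * (Matrix.single a i (1 : k) * X
              - X * ((0 : sl (Fin m) k) : Matrix (Fin m) (Fin m) k))
            - (Matrix.single a i (1 : k) * X - X * ((0 : sl (Fin m) k) : Matrix (Fin m) (Fin m) k))
              * Matrix.single j b (1 : k) ∈ W at h2
        rw [h3] at h2
        have h4 := W.smul_mem (- X i j)⁻¹ h2
        rwa [smul_smul, inv_mul_cancel₀ (neg_ne_zero.2 hij), one_smul] at h4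
      obtain ⟨b1, hb1⟩ : ∃ b1 : Fin m, b1 ≠ j := by
        have : Nontrivial (Fin m) := Fin.nontrivial_iff_two_le.2 hm
        exact exists_ne j
      have key2 : ∀ (a : Fin n) (b : Fin m), Matrix.single a b (1 : k) ∈ W := by
        intro a b
        by_cases hb : b = j
        · subst hb
          have hm' : Matrix.single b1 b (1 : k) ∈ sl (Fin m) k := by
            rw [mem_sl_iff]
            simp [Matrix.trace_single_eq_of_ne b1 b _ hb1]
          have h1 := hW (0, ⟨_, hm'⟩) _ (key a b1 hb1)
          rw [tens_apply] at h1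
          have h3 : (0 : Matrix (Fin n) (Fin n) k) * Matrix.single a b1 (1 : k)
              - Matrix.single a b1 (1 : k) * Matrix.single b1 b (1 : k)
              = - Matrix.single a b (1 : k) := by
            rw [Matrix.zero_mul, zero_sub]
            simp
          change (0 : Matrix (Fin n) (Fin n) k) * Matrix.single a b1 (1 : k)
              - Matrix.single a b1 (1 : k) * Matrix.single b1 b (1 : k) ∈ W at h1
          rw [h3] at h1
          simpa using W.neg_mem h1
        · exact key a b hb
      rw [eq_top_iff]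
      intro Y _
      rw [Matrix.matrix_eq_sum_single Y]
      apply W.sum_mem
      intro a _
      apply W.sum_mem
      intro b _
      have : Matrix.single a b (Y a b) = Y a b • Matrix.single a b (1 : k) := by
        simp
      rw [this]
      exact W.smul_mem _ (key2 a b)

open LieAlgebra.SpecialLinear in
/-- the trace form of the representation `k^n ⊕ k^m` of `gl_n × sl_m` is nondegenerate -/
theorem trace_form_nondeg {m : ℕ} (hm : 2 ≤ m) (hm0 : (m : k) ≠ 0)
    (x : Matrix (Fin n) (Fin n) k × sl (Fin m) k)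
    (h : ∀ y : Matrix (Fin n) (Fin n) k × sl (Fin m) k, Matrix.trace (x.1 * y.1)
      + Matrix.trace ((x.2 : Matrix (Fin m) (Fin m) k) * (y.2 : Matrix (Fin m) (Fin m) k)) = 0) :
    x = 0 := by
  obtain ⟨A, B⟩ := x
  have h1 : A = 0 := by
    ext i j
    have := h (Matrix.single j i 1, 0)
    have e : Matrix.trace ((B : Matrix (Fin m) (Fin m) k)
        * ((0 : sl (Fin m) k) : Matrix (Fin m) (Fin m) k)) = 0 := by
      have h4 : ((0 : sl (Fin m) k) : Matrix (Fin m) (Fin m) k) = 0 := rfl
      rw [h4, mul_zero, Matrix.trace_zero]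
    change Matrix.trace (A * Matrix.single j i 1) + Matrix.trace ((B : Matrix (Fin m) (Fin m) k)
        * ((0 : sl (Fin m) k) : Matrix (Fin m) (Fin m) k)) = 0 at this
    rw [e, add_zero] at this
    simpa [Matrix.trace_mul_single] using this
  have h2 : ∀ C : Matrix (Fin m) (Fin m) k, Matrix.trace C = 0 →
      Matrix.trace ((B : Matrix (Fin m) (Fin m) k) * C) = 0 := by
    intro C hC
    have := h (0, ⟨C, (mem_sl_iff _).2 hC⟩)
    change Matrix.trace (A * 0) + Matrix.trace ((B : Matrix (Fin m) (Fin m) k) * C) = 0 at this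
    rw [mul_zero, Matrix.trace_zero, zero_add] at this
    exact this
  have h3 : ∀ i j, i ≠ j → (B : Matrix (Fin m) (Fin m) k) i j = 0 := by
    intro i j hij
    have := h2 (Matrix.single j i 1) (Matrix.trace_single_eq_of_ne j i _ (Ne.symm hij))
    simpa [Matrix.trace_mul_single] using this
  have h4 : ∀ i j, (B : Matrix (Fin m) (Fin m) k) i i = (B : Matrix (Fin m) (Fin m) k) j j := by
    intro i j
    have := h2 (Matrix.single i i 1 - Matrix.single j j 1) (by simp)
    rw [mul_sub, Matrix.trace_sub] at this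
    simpa [Matrix.trace_mul_single, sub_eq_zero] using this
  have h5 : (B : Matrix (Fin m) (Fin m) k) = 0 := by
    have hj : 0 < m := by omega
    have h6 : (B : Matrix (Fin m) (Fin m) k) = (B : Matrix (Fin m) (Fin m) k) ⟨0, hj⟩ ⟨0, hj⟩ •
        (1 : Matrix (Fin m) (Fin m) k) := by
      ext i j
      by_cases hij : i = j
      · subst hij
        rw [h4 i ⟨0, hj⟩]
        simp
      · rw [h3 i j hij]
        simp [Matrix.one_apply_ne hij]
    have h7 : Matrix.trace (B : Matrix (Fin m) (Fin m) k) = 0 := (mem_sl_iff _).1 B.2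
    rw [h6, Matrix.trace_smul, Matrix.trace_one, Fintype.card_fin, smul_eq_mul] at h7
    rw [h6, (mul_eq_zero.1 h7).resolve_right hm0, zero_smul]
  exact Prod.ext h1 (Subtype.ext h5)

end sl

open LieAlgebra.SpecialLinear in
/-- `gl_n(k) × g'`, with `p ∣ n`, has the Richardson property only if `p ∣ dim g'`. In particular
`gl_n(k) × sl_m(k)` with `p ∣ n`, `p ∤ m (m ^ 2 - 1)` does not have it, although both factors do,
the product has faithful simple modules and its natural trace form is nondegenerate. -/
theorem result (p : ℕ) [Fact p.Prime] (k : Type u) [Field k] [IsAlgClosed k] [CharP k p]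
    (n : ℕ) (hn : 0 < n) (hpn : p ∣ n) :
    (∀ (g' : Type u) [LieRing g'] [LieAlgebra k g'] [FiniteDimensional k g'],
      ¬ p ∣ finrank k g' → ¬ Richardson k (Matrix (Fin n) (Fin n) k × g')) ∧
    (∀ m : ℕ, 2 ≤ m → ¬ p ∣ m → ¬ p ∣ m ^ 2 - 1 →
      ¬ Richardson k (Matrix (Fin n) (Fin n) k × sl (Fin m) k) ∧
      Richardson k (Matrix (Fin n) (Fin n) k) ∧ Richardson k (sl (Fin m) k) ∧
      (∃ ρ : (Matrix (Fin n) (Fin n) k × sl (Fin m) k) →ₗ[k]
        Module.End k (Matrix (Fin n) (Fin m) k), FaithfulSimple ρ) ∧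
      (∀ x : Matrix (Fin n) (Fin n) k × sl (Fin m) k,
        (∀ y : Matrix (Fin n) (Fin n) k × sl (Fin m) k, Matrix.trace (x.1 * y.1)
          + Matrix.trace ((x.2 : Matrix (Fin m) (Fin m) k) * (y.2 : Matrix (Fin m) (Fin m) k)) = 0)
        → x = 0)) := by
  have hn0 : (n : k) = 0 := (CharP.cast_eq_zero_iff k p n).2 hpn
  have main : ∀ (g' : Type u) [LieRing g'] [LieAlgebra k g'] [FiniteDimensional k g'],
      ¬ p ∣ finrank k g' → ¬ Richardson k (Matrix (Fin n) (Fin n) k × g') := by
    intro g' _ _ _ hg
    exact not_richardson_prod hn hn0 g' (fun h => hg ((CharP.cast_eq_zero_iff k p _).1 h))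
  refine ⟨main, ?_⟩
  intro m hm hpm hpm'
  have hm0 : (m : k) ≠ 0 := fun h => hpm ((CharP.cast_eq_zero_iff k p m).1 h)
  have hfin : FiniteDimensional k (sl (Fin m) k) :=
    inferInstanceAs (FiniteDimensional k (LinearMap.ker (Matrix.traceLinearMap (Fin m) k k)))
  have hdim : finrank k (sl (Fin m) k) = m ^ 2 - 1 := by
    have := finrank_sl (k := k) (n := m) (by omega)
    rw [pow_two]
    omega
  exact ⟨main (sl (Fin m) k) (by rw [hdim]; exact hpm'), richardson_gl hn, richardson_sl hm0,
    ⟨tens k n m, tens_faithfulSimple hn hm hm0⟩, fun x h => trace_form_nondeg hm hm0 x h⟩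

end Pool.Agent.Results.MP_3a0263_al.GoodProduct
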