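import Mathlib

set_option autoImplicit false

namespace Pool.Agent.Results.MP_3a0263_al.OnlyIfCharTwo

open Module Matrix

universe u v

/-- The Richardson property: there are a finite dimensional faithful simple representation `ρ` of
`g` on a space `Y` and a complement `R` of `ρ g` in `End Y` with `[ρ g, R] ⊆ R`. -/
def Richardson (k : Type u) (g : Type v) [Field k] [LieRing g] [LieAlgebra k g] : Prop :=
  ∃ (Y : Type u) (_ : AddCommGroup Y) (_ : Module k Y) (_ : FiniteDimensional k Y)
    (ρ : g →ₗ[k] Module.End k Y),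
    (∀ x y : g, ρ ⁅x, y⁆ = ρ x * ρ y - ρ y * ρ x) ∧
    Function.Injective ρ ∧
    Nontrivial Y ∧
    (∀ W : Submodule k Y, (∀ x : g, ∀ w ∈ W, ρ x w ∈ W) → W = ⊥ ∨ W = ⊤) ∧
    ∃ R : Submodule k (Module.End k Y),
      IsCompl (LinearMap.range ρ) R ∧ ∀ x : g, ∀ r ∈ R, ρ x * r - r * ρ x ∈ R

/-- `f` is a `2`-map on the Lie algebra `g` over a field of characteristic two, making it a
restricted Lie algebra: Jacobson's axioms for `p = 2`. -/
def IsTwoMap (k : Type u) (g : Type v) [Field k] [LieRing g] [LieAlgebra k g] (f : g → g) : Prop :=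
  (∀ x y : g, ⁅f x, y⁆ = ⁅x, ⁅x, y⁆⁆) ∧
  (∀ (c : k) (x : g), f (c • x) = c ^ 2 • f x) ∧
  (∀ x y : g, f (x + y) = f x + f y + ⁅x, y⁆)

/-- the two dimensional Lie algebra with basis `x = (1,0)`, `y = (0,1)` and `⁅x, y⁆ = y` -/
def Aff (k : Type u) : Type u := k × k

variable {k : Type u} [Field k]

instance : AddCommGroup (Aff k) := inferInstanceAs (AddCommGroup (k × k))
instance : Module k (Aff k) := inferInstanceAs (Module k (k × k))

instance : Bracket (Aff k) (Aff k) := ⟨fun x y => (0, x.1 * y.2 - x.2 * y.1)⟩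

lemma bracket_def (x y : Aff k) : ⁅x, y⁆ = ((0, x.1 * y.2 - x.2 * y.1) : k × k) := rfl

instance : LieRing (Aff k) where
  add_lie x y z := by
    simp only [bracket_def]
    refine Prod.ext ?_ ?_
    · show (0 : k) = 0 + 0
      simp
    · show (x.1 + y.1) * z.2 - (x.2 + y.2) * z.1 = (x.1 * z.2 - x.2 * z.1) + (y.1 * z.2 - y.2 * z.1)
      ring
  lie_add x y z := by
    simp only [bracket_def]
    refine Prod.ext ?_ ?_
    · show (0 : k) = 0 + 0
      simp
    · show x.1 * (y.2 + z.2) - x.2 * (y.1 + z.1) = (x.1 * y.2 - x.2 * y.1) + (x.1 * z.2 - x.2 * z.1)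
      ring
  lie_self x := by
    simp only [bracket_def]
    refine Prod.ext rfl ?_
    show x.1 * x.2 - x.2 * x.1 = 0
    ring
  leibniz_lie x y z := by
    simp only [bracket_def]
    refine Prod.ext ?_ ?_
    · show (0 : k) = 0 + 0
      simp
    · show x.1 * (y.1 * z.2 - y.2 * z.1) - x.2 * 0
        = (0 * z.2 - (x.1 * y.2 - x.2 * y.1) * z.1) + (y.1 * (x.1 * z.2 - x.2 * z.1) - y.2 * 0)
      ring

instance : LieAlgebra k (Aff k) where
  lie_smul c x y := by
    simp only [bracket_def]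
    refine Prod.ext ?_ ?_
    · show (0 : k) = c * 0
      simp
    · show x.1 * (c * y.2) - x.2 * (c * y.1) = c * (x.1 * y.2 - x.2 * y.1)
      ring

/-- the matrix of the representation -/
def rho (k : Type u) [Field k] : Aff k →ₗ[k] Module.End k (Fin 2 → k) where
  toFun x := Matrix.toLin' !![x.1, x.2; x.2, 0]
  map_add' x y := by
    rw [← map_add]
    congr 1
    ext i j
    fin_cases i <;> fin_cases j <;> simp <;> rfl
  map_smul' c x := by
    rw [RingHom.id_apply, ← map_smul]
    congr 1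
    ext i j
    fin_cases i <;> fin_cases j <;> simp <;> rfl

/-- the element `(a, b)` -/
def mk (a b : k) : Aff k := ((a, b) : k × k)

lemma rho_mk (a b : k) : rho k (mk a b) = Matrix.toLin' !![a, b; b, 0] := rfl

lemma rho_def (x : Aff k) : rho k x = Matrix.toLin' !![x.1, x.2; x.2, 0] := rfl

/-- scalars and multiples of `E₁₂` -/
def Rsub (k : Type u) [Field k] : Submodule k (Module.End k (Fin 2 → k)) :=
  LinearMap.range ((Matrix.toLin' : Matrix (Fin 2) (Fin 2) k ≃ₗ[k] _).toLinearMap ∘ₗ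
    ({ toFun := fun x => !![x.1, x.2; 0, x.1]
       map_add' := fun x y => by
        ext i j
        fin_cases i <;> fin_cases j <;> simp
       map_smul' := fun c x => by
        ext i j
        fin_cases i <;> fin_cases j <;> simp } : (k × k) →ₗ[k] Matrix (Fin 2) (Fin 2) k))

lemma mem_Rsub (T : Module.End k (Fin 2 → k)) :
    T ∈ Rsub k ↔ ∃ a b : k, T = Matrix.toLin' !![a, b; 0, a] := by
  constructor
  · rintro ⟨⟨a, b⟩, rfl⟩
    exact ⟨a, b, rfl⟩
  · rintro ⟨a, b, rfl⟩
    exact ⟨⟨a, b⟩, rfl⟩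

lemma richardson_aff [CharP k 2] : Richardson k (Aff k) := by
  have h2 : (2 : k) = 0 := CharP.ofNat_eq_zero k 2
  have hneg : ∀ a : k, -a = a := fun a => by
    linear_combination (-a) * h2
  refine ⟨Fin 2 → k, inferInstance, inferInstance, inferInstance, rho k, ?_, ?_, inferInstance,
    ?_, Rsub k, ?_, ?_⟩
  · intro x y
    have hb : ⁅x, y⁆ = mk 0 (x.1 * y.2 - x.2 * y.1) := rfl
    rw [hb, rho_mk, rho_def, rho_def]
    show _ = (Matrix.toLin' _).comp (Matrix.toLin' _) - (Matrix.toLin' _).comp (Matrix.toLin' _)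
    rw [← Matrix.toLin'_mul, ← Matrix.toLin'_mul, ← map_sub]
    congr 1
    ext i j
    fin_cases i <;> fin_cases j <;> simp [Matrix.mul_apply, Fin.sum_univ_two]
    · ring
    · ring
    · linear_combination (x.1 * y.2 - x.2 * y.1) * h2
    · ring
  · intro x y h
    have h' : (!![x.1, x.2; x.2, 0] : Matrix (Fin 2) (Fin 2) k) = !![y.1, y.2; y.2, 0] :=
      Matrix.toLin'.injective h
    have h0 := congrFun (congrFun h' 0) 0
    have h1 := congrFun (congrFun h' 0) 1
    simp at h0 h1
    exact Prod.ext h0 h1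
  · intro W hW
    by_cases hb : W = ⊥
    · exact Or.inl hb
    right
    obtain ⟨w, hw, hne⟩ := (Submodule.ne_bot_iff W).1 hb
    have hx : ∀ v ∈ W, ![v 0, 0] ∈ W := by
      intro v hv
      have := hW (mk 1 0) v hv
      have h3 : (rho k (mk 1 0)) v = ![v 0, 0] := by
        rw [rho_mk, Matrix.toLin'_apply]
        ext i
        fin_cases i <;> simp [Matrix.mulVec, dotProduct, Fin.sum_univ_two]
      rwa [h3] at this
    have hy : ∀ v ∈ W, ![v 1, v 0] ∈ W := by
      intro v hv
      have := hW (mk 0 1) v hv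
      have h3 : (rho k (mk 0 1)) v = ![v 1, v 0] := by
        rw [rho_mk, Matrix.toLin'_apply]
        ext i
        fin_cases i <;> simp [Matrix.mulVec, dotProduct, Fin.sum_univ_two]
      rwa [h3] at this
    have key : ∃ c : k, c ≠ 0 ∧ ![c, 0] ∈ W := by
      by_cases h0 : w 0 = 0
      · have h1 : w 1 ≠ 0 := by
          intro h1
          apply hne
          ext i
          fin_cases i
          · exact h0
          · exact h1
        refine ⟨w 1, h1, ?_⟩
        have := hx _ (hy w hw)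
        simpa using this
      · exact ⟨w 0, h0, hx w hw⟩
    obtain ⟨c, hc, hcW⟩ := key
    rw [eq_top_iff]
    intro v _
    have e0 : ![(1 : k), 0] ∈ W := by
      have := W.smul_mem c⁻¹ hcW
      have h3 : c⁻¹ • ![c, (0 : k)] = ![(1 : k), 0] := by
        ext i
        fin_cases i <;> simp [hc]
      rwa [h3] at this
    have e1 : ![(0 : k), 1] ∈ W := by
      have := hy _ e0
      simpa using this
    have h4 : v = v 0 • ![(1 : k), 0] + v 1 • ![(0 : k), 1] := by
      ext i
      fin_cases i <;> simp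
    rw [h4]
    exact W.add_mem (W.smul_mem _ e0) (W.smul_mem _ e1)
  · constructor
    · rw [Submodule.disjoint_def]
      rintro T ⟨x, rfl⟩ hT
      obtain ⟨a, b, hab⟩ := (mem_Rsub _).1 hT
      have h' : (!![x.1, x.2; x.2, 0] : Matrix (Fin 2) (Fin 2) k) = !![a, b; 0, a] :=
        Matrix.toLin'.injective hab
      have h0 := congrFun (congrFun h' 0) 0
      have h1 := congrFun (congrFun h' 1) 0
      have h3 := congrFun (congrFun h' 1) 1
      simp at h0 h1 h3
      rw [rho_def, h0, h1, ← h3]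
      have : (!![0, 0; 0, 0] : Matrix (Fin 2) (Fin 2) k) = 0 := by
        ext i j
        fin_cases i <;> fin_cases j <;> rfl
      rw [this, map_zero]
    · rw [codisjoint_iff, eq_top_iff]
      intro T _
      obtain ⟨M, rfl⟩ := Matrix.toLin'.surjective T
      rw [Submodule.mem_sup]
      refine ⟨rho k (mk (M 0 0 - M 1 1) (M 1 0)), ⟨_, rfl⟩,
        Matrix.toLin' !![M 1 1, M 0 1 - M 1 0; 0, M 1 1], (mem_Rsub _).2 ⟨_, _, rfl⟩, ?_⟩
      rw [rho_mk, ← map_add]
      congr 1
      ext i j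
      fin_cases i <;> fin_cases j <;> simp
  · intro x r hr
    obtain ⟨a, b, rfl⟩ := (mem_Rsub _).1 hr
    rw [mem_Rsub]
    refine ⟨x.2 * b, x.1 * b, ?_⟩
    rw [rho_def]
    show (Matrix.toLin' _).comp (Matrix.toLin' _) - (Matrix.toLin' _).comp (Matrix.toLin' _) = _
    rw [← Matrix.toLin'_mul, ← Matrix.toLin'_mul, ← map_sub]
    congr 1
    ext i j
    fin_cases i <;> fin_cases j <;> simp [Matrix.mul_apply, Fin.sum_univ_two]
    · linear_combination (- x.2 * b) * h2
    · ring
    · ring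

/-- Over every algebraically closed field of characteristic two there is a restricted Lie algebra
of dimension two, non-abelian, solvable and with trivial centre, that has the Richardson
property. -/
theorem result (k : Type u) [Field k] [IsAlgClosed k] [CharP k 2] :
    ∃ (g : Type u) (_ : LieRing g) (_ : LieAlgebra k g),
      Module.finrank k g = 2 ∧
      (∃ f : g → g, IsTwoMap k g f) ∧
      (∃ x y : g, ⁅x, y⁆ ≠ 0) ∧
      (∀ z : g, (∀ x : g, ⁅z, x⁆ = 0) → z = 0) ∧
      (∀ x y z w : g, ⁅⁅x, y⁆, ⁅z, w⁆⁆ = 0) ∧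
      Richardson k g := by
  have h2 : (2 : k) = 0 := CharP.ofNat_eq_zero k 2
  refine ⟨Aff k, inferInstance, inferInstance, ?_, ⟨fun x => ((x.1 ^ 2, x.1 * x.2) : k × k), ?_, ?_, ?_⟩,
    ⟨((1 : k), (0 : k)), ((0 : k), (1 : k)), ?_⟩, ?_, ?_, richardson_aff⟩
  · show Module.finrank k (k × k) = 2
    simp
  · intro x y
    simp only [bracket_def]
    refine Prod.ext rfl ?_
    show x.1 ^ 2 * y.2 - x.1 * x.2 * y.1 = x.1 * (x.1 * y.2 - x.2 * y.1) - x.2 * 0
    ring
  · intro c x
    refine Prod.ext ?_ ?_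
    · show (c * x.1) ^ 2 = c ^ 2 * x.1 ^ 2
      ring
    · show (c * x.1) * (c * x.2) = c ^ 2 * (x.1 * x.2)
      ring
  · intro x y
    refine Prod.ext ?_ ?_
    · show (x.1 + y.1) ^ 2 = x.1 ^ 2 + y.1 ^ 2 + 0
      linear_combination (x.1 * y.1) * h2
    · show (x.1 + y.1) * (x.2 + y.2) = x.1 * x.2 + y.1 * y.2 + (x.1 * y.2 - x.2 * y.1)
      linear_combination (y.1 * x.2) * h2
  · intro h
    have := congrArg Prod.snd h
    have h3 : (1 : k) * 1 - 0 * 0 = 0 := this
    simp at h3
  · intro z hz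
    have h3 := congrArg Prod.snd (hz (((1 : k), (0 : k)) : k × k))
    have h4 := congrArg Prod.snd (hz (((0 : k), (1 : k)) : k × k))
    have h3' : z.1 * 0 - z.2 * 1 = 0 := h3
    have h4' : z.1 * 1 - z.2 * 0 = 0 := h4
    refine Prod.ext ?_ ?_
    · show z.1 = 0
      linear_combination h4'
    · show z.2 = 0
      linear_combination - h3'
  · intro x y z w
    refine Prod.ext rfl ?_
    show (0 : k) * _ - _ * 0 = 0
    ring

end Pool.Agent.Results.MP_3a0263_al.OnlyIfCharTwo
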