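import Mathlib

set_option autoImplicit false

namespace Pool.Agent.Results.MP_3a0263_al.Sandwich

open Module Polynomial

universe u v

/-- The Richardson property: there are a finite dimensional faithful simple representation `ρ` of
`g` on a space `Y` and a complement `R` of `ρ g` in `End Y` with `[ρ g, R] ⊆ R`. -/
def Richardson (k : Type u) (g : Type v) [Field k] [LieRing g] [LieAlgebra k g] : Prop :=
  ∃ (Y : Type u) (_ : AddCommGroup Y) (_ : Module k Y) (_ : FiniteDimensional k Y)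
    (ρ : g →ₗ[k] Module.End k Y),
    (∀ x y : g, ρ ⁅x, y⁆ = ρ x * ρ y - ρ y * ρ x) ∧
    Function.Injective ρ ∧
    Nontrivial Y ∧
    (∀ W : Submodule k Y, (∀ x : g, ∀ w ∈ W, ρ x w ∈ W) → W = ⊥ ∨ W = ⊤) ∧
    ∃ R : Submodule k (Module.End k Y),
      IsCompl (LinearMap.range ρ) R ∧ ∀ x : g, ∀ r ∈ R, ρ x * r - r * ρ x ∈ R

section jordan

variable {k : Type u} [Field k]

/-- the operator `(e - 1) d/dX - X d^2/dX^2` on polynomials -/
noncomputable def F0 (k : Type u) [Field k] (e : ℕ) : k[X] →ₗ[k] k[X] :=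
  ((e : k) - 1) • derivative - (LinearMap.mulLeft k (X : k[X])) ∘ₗ derivative ∘ₗ derivative

lemma F0_apply (e : ℕ) (f : k[X]) :
    F0 k e f = C ((e : k) - 1) * derivative f - X * derivative (derivative f) := by
  simp [F0, smul_eq_C_mul]

lemma F0_id (e : ℕ) (f : k[X]) :
    X * (X * F0 k e f) - 2 * (X * F0 k e (X * f)) + F0 k e (X * (X * f)) = - (2 * (X * f)) := by
  simp only [F0_apply, derivative_mul, derivative_X, derivative_add, one_mul]
  ring

lemma F0_mem (e : ℕ) (g : k[X]) : X ^ e ∣ F0 k e (X ^ e * g) := by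
  rcases e with _ | _ | e
  · simp
  · refine ⟨- (2 * derivative g) - X * derivative (derivative g), ?_⟩
    simp only [F0_apply, derivative_mul, derivative_X, derivative_add, one_mul, zero_add, pow_one,
      Nat.cast_one, sub_self, C_0, zero_mul]
    ring
  · refine ⟨C (((e : k) + 1)) * derivative g - 2 * C ((e : k) + 2) * derivative g
      - X * derivative (derivative g), ?_⟩
    simp only [F0_apply, derivative_mul, derivative_X_pow, derivative_add, derivative_C, zero_mul,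
      zero_add]
    simp only [map_sub, map_add, map_natCast, map_one, Nat.cast_add, Nat.cast_one,
      Nat.add_sub_cancel, map_ofNat]
    ring

/-- existence of the lowering operator on a `k[X]`-module -/
def JP (k : Type u) [Field k] (M : Type v) [AddCommGroup M] [Module k M] [Module k[X] M] : Prop :=
  ∃ F : M →ₗ[k] M, ∀ x : M, (X : k[X]) • (X : k[X]) • F x - (2 : k[X]) • ((X : k[X]) •
    F ((X : k[X]) • x)) + F ((X : k[X]) • (X : k[X]) • x) = - ((2 : k[X]) • ((X : k[X]) • x))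

lemma jp_quot (e : ℕ) : JP k (k[X] ⧸ Submodule.span k[X] {(X : k[X]) ^ e}) := by
  let S : Submodule k[X] k[X] := Submodule.span k[X] {(X : k[X]) ^ e}
  let S' : Submodule k k[X] := S.restrictScalars k
  have hmem : ∀ f, f ∈ S' ↔ X ^ e ∣ f := by
    intro f
    show f ∈ S ↔ _
    exact Ideal.mem_span_singleton
  let G : k[X] →ₗ[k] (k[X] ⧸ S) := (S.mkQ.restrictScalars k) ∘ₗ F0 k e
  have hG : ∀ f ∈ S', G f = 0 := by
    intro f hf
    obtain ⟨g, rfl⟩ := (hmem f).1 hf
    show S.mkQ (F0 k e (X ^ e * g)) = 0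
    rw [Submodule.mkQ_apply, Submodule.Quotient.mk_eq_zero]
    exact (hmem _).2 (F0_mem e g)
  let G' : (k[X] ⧸ S') →ₗ[k] (k[X] ⧸ S) := S'.liftQ G (fun f hf => by
    rw [LinearMap.mem_ker]; exact hG f hf)
  let E : (k[X] ⧸ S') ≃ₗ[k] (k[X] ⧸ S) := Submodule.Quotient.restrictScalarsEquiv k S
  have hE : ∀ f : k[X], (G' ∘ₗ E.symm.toLinearMap) (S.mkQ f) = S.mkQ (F0 k e f) := by
    intro f
    have : E.symm (S.mkQ f) = S'.mkQ f := rfl
    show G' (E.symm (S.mkQ f)) = _
    rw [this]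
    rfl
  refine ⟨G' ∘ₗ E.symm.toLinearMap, ?_⟩
  intro x
  obtain ⟨f, rfl⟩ := S.mkQ_surjective x
  have e1 : ∀ a f : k[X], a • S.mkQ f = S.mkQ (a * f) := fun _ _ => rfl
  rw [e1, e1, hE, hE, hE, e1, e1, e1, e1, e1, ← map_sub, ← map_add, ← map_neg]
  rw [F0_id (k := k) e f]

lemma jp_equiv {M N : Type*} [AddCommGroup M] [Module k M] [Module k[X] M]
    [IsScalarTower k k[X] M] [AddCommGroup N] [Module k N] [Module k[X] N]
    [IsScalarTower k k[X] N] (f : M ≃ₗ[k[X]] N) (h : JP k N) : JP k M := by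
  obtain ⟨F, hF⟩ := h
  let f' : M ≃ₗ[k] N := f.restrictScalars k
  refine ⟨f'.symm.toLinearMap ∘ₗ F ∘ₗ f'.toLinearMap, ?_⟩
  intro x
  have h1 : ∀ y, (f'.symm.toLinearMap ∘ₗ F ∘ₗ f'.toLinearMap) y = f.symm (F (f y)) := fun y => rfl
  simp only [h1]
  apply f.injective
  simp only [map_add, map_sub, map_neg, map_smul, LinearEquiv.apply_symm_apply]
  exact hF (f x)

lemma jp_directSum {ι : Type} [Fintype ι] [DecidableEq ι] (M : ι → Type v)
    [∀ i, AddCommGroup (M i)]
    [∀ i, Module k (M i)] [∀ i, Module k[X] (M i)] [∀ i, IsScalarTower k k[X] (M i)]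
    (h : ∀ i, JP k (M i)) : JP k (DirectSum ι M) := by
  choose F hF using h
  refine ⟨DFinsupp.mapRange.linearMap F, ?_⟩
  intro x
  refine DFinsupp.ext (fun i => ?_)
  have := hF i (x i)
  exact this

/-- a nilpotent endomorphism `N` is of the form `- [N, [N, F]] / 2` -/
theorem exists_lowering {Y : Type u} [AddCommGroup Y] [Module k Y] [FiniteDimensional k Y]
    (N : Module.End k Y) (hN : IsNilpotent N) :
    ∃ F : Module.End k Y, N * (N * F) - 2 * (N * (F * N)) + F * (N * N) = - (2 * N) := by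
  let M := Module.AEval' N
  have hT : Module.IsTorsion' M (Submonoid.powers (X : k[X])) := by
    obtain ⟨m, hm⟩ := hN
    intro x
    refine ⟨⟨X ^ m, m, rfl⟩, ?_⟩
    obtain ⟨y, rfl⟩ := (Module.AEval'.of N).surjective x
    show (X ^ m : k[X]) • (Module.AEval'.of N y) = 0
    have := Module.AEval'.X_pow_smul_of N y m
    rw [hm, zero_smul, map_zero] at this
    exact this
  obtain ⟨d, e, ⟨f⟩⟩ := Module.torsion_by_prime_power_decomposition
    (R := k[X]) (M := M) (p := X) irreducible_X hT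
  have hJP : JP k M := by
    refine jp_equiv f ?_
    exact jp_directSum _ (fun i => jp_quot (e i))
  obtain ⟨F, hF⟩ := hJP
  let o : Y ≃ₗ[k] M := Module.AEval'.of N
  have hX : ∀ y : Y, (X : k[X]) • o y = o (N y) := fun y => Module.AEval'.X_smul_of N y
  have hX' : ∀ z : M, o.symm ((X : k[X]) • z) = N (o.symm z) := fun z => by
    apply o.injective
    rw [← hX, LinearEquiv.apply_symm_apply, LinearEquiv.apply_symm_apply]
  have h2 : ∀ z : M, o.symm ((2 : k[X]) • z) = (2 : k) • (o.symm z) := fun z => by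
    have : (2 : k[X]) • z = (2 : k) • z := by
      have h3 : (2 : k[X]) = algebraMap k k[X] 2 := (map_ofNat (algebraMap k k[X]) 2).symm
      rw [h3, algebraMap_smul]
    rw [this, map_smul]
  refine ⟨o.symm.toLinearMap ∘ₗ F ∘ₗ o.toLinearMap, ?_⟩
  ext y
  have h4 := congrArg o.symm (hF (o y))
  rw [map_add, map_sub, map_neg, h2, h2, hX', hX', hX', hX', hX, hX,
    LinearEquiv.symm_apply_apply] at h4
  have h5 : ∀ (T : Module.End k Y), (2 * T) y = (2 : k) • (T y) := fun T => by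
    rw [two_mul, two_smul]; rfl
  rw [LinearMap.add_apply, LinearMap.sub_apply, LinearMap.neg_apply, h5, h5]
  exact h4

end jordan

section main

variable {k : Type u} [Field k]

/-- Schur's lemma -/
lemma schur_lemma {g : Type v} [IsAlgClosed k] {Y : Type u} [AddCommGroup Y] [Module k Y]
    [FiniteDimensional k Y] [Nontrivial Y] (ρ : g → Module.End k Y)
    (hs : ∀ W : Submodule k Y, (∀ x : g, ∀ w ∈ W, ρ x w ∈ W) → W = ⊥ ∨ W = ⊤)
    (T : Module.End k Y) (hT : ∀ x, ρ x * T = T * ρ x) : ∃ c : k, T = c • 1 := by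
  obtain ⟨c, hc⟩ := Module.End.exists_eigenvalue T
  refine ⟨c, ?_⟩
  rcases hs (Module.End.eigenspace T c) (by
    intro x w hw
    rw [Module.End.mem_eigenspace_iff] at hw ⊢
    have := congrArg (fun f : Module.End k Y => f w) (hT x)
    simp only [Module.End.mul_apply] at this
    rw [← this, hw, map_smul]) with h | h
  · exact absurd h hc
  · ext w
    have : w ∈ Module.End.eigenspace T c := by rw [h]; trivial
    rw [Module.End.mem_eigenspace_iff] at this
    simpa using this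

/-- An endomorphism whose iterated commutators with `ρ g` vanish has only one eigenvalue. -/
lemma exists_nilpotent_shift (p : ℕ) [hp : Fact p.Prime] [CharP k p] [IsAlgClosed k]
    {g : Type v} [LieRing g] [LieAlgebra k g]
    {Y : Type u} [AddCommGroup Y] [Module k Y] [FiniteDimensional k Y] [Nontrivial Y]
    (ρ : g →ₗ[k] Module.End k Y)
    (hρ : ∀ x y : g, ρ ⁅x, y⁆ = ρ x * ρ y - ρ y * ρ x)
    (hs : ∀ W : Submodule k Y, (∀ x : g, ∀ w ∈ W, ρ x w ∈ W) → W = ⊥ ∨ W = ⊤)
    (c : g) (m : ℕ) (hc : ∀ x : g, (fun y : g => ⁅c, y⁆)^[m] x = 0) :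
    ∃ l : k, IsNilpotent (ρ c - l • (1 : Module.End k Y)) := by
  let C := ρ c
  have hq : m ≤ p ^ m := (Nat.lt_pow_self hp.1.one_lt).le
  let Lm : Module.End k (Module.End k Y) := LinearMap.mulLeft k C
  let Rm : Module.End k (Module.End k Y) := LinearMap.mulRight k C
  have hcomm : Commute Lm Rm := by
    ext T y
    simp [Lm, Rm, mul_assoc]
  have : CharP (Module.End k (Module.End k Y)) p :=
    charP_of_injective_algebraMap (FaithfulSMul.algebraMap_injective k _) p
  have h1 : (Lm - Rm) ^ (p ^ m) = Lm ^ (p ^ m) - Rm ^ (p ^ m) :=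
    sub_pow_char_pow_of_commute (p := p) m hcomm
  have h2 : ∀ (j : ℕ) (x : g), ((Lm - Rm) ^ j) (ρ x) = ρ ((fun y : g => ⁅c, y⁆)^[j] x) := by
    intro j
    induction j with
    | zero => intro x; simp
    | succ j ih =>
      intro x
      rw [pow_succ, Module.End.mul_apply]
      have : (Lm - Rm) (ρ x) = ρ ⁅c, x⁆ := by rw [hρ]; rfl
      rw [this, ih, Function.iterate_succ_apply]
  have h3 : ∀ x : g, (fun y : g => ⁅c, y⁆)^[p ^ m] x = 0 := by
    intro x
    obtain ⟨d, hd⟩ := Nat.exists_eq_add_of_le hq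
    rw [hd, Function.iterate_add_apply, hc]
  have h4 : ∀ x, C ^ (p ^ m) * ρ x = ρ x * C ^ (p ^ m) := by
    intro x
    have h5 := h2 (p ^ m) x
    rw [h3, map_zero, h1] at h5
    have h6 : (Lm ^ (p ^ m)) (ρ x) = C ^ (p ^ m) * ρ x := by
      simp [Lm]
    have h7 : (Rm ^ (p ^ m)) (ρ x) = ρ x * C ^ (p ^ m) := by
      simp [Rm]
    rw [LinearMap.sub_apply, h6, h7] at h5
    exact sub_eq_zero.1 h5
  obtain ⟨μ, hμ⟩ := schur_lemma (fun x => ρ x) hs (C ^ (p ^ m)) (fun x => (h4 x).symm)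
  obtain ⟨l, hl⟩ := IsAlgClosed.exists_pow_nat_eq μ (n := p ^ m) (pow_pos hp.1.pos m)
  refine ⟨l, p ^ m, ?_⟩
  have : CharP (Module.End k Y) p :=
    charP_of_injective_algebraMap (FaithfulSMul.algebraMap_injective k _) p
  have h8 : Commute C (l • (1 : Module.End k Y)) := by
    show C * (l • 1) = (l • 1) * C
    simp
  have h9 : (C - l • (1 : Module.End k Y)) ^ (p ^ m) = C ^ (p ^ m) - (l • 1) ^ (p ^ m) :=
    sub_pow_char_pow_of_commute (p := p) m h8
  show (C - l • (1 : Module.End k Y)) ^ (p ^ m) = 0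
  rw [h9, _root_.smul_pow, one_pow, hl, hμ, sub_self]

/-- the Jacobson-Morozov type property -/
theorem jacobson_morozov (p : ℕ) [hp : Fact p.Prime] [CharP k p] [IsAlgClosed k] (hp2 : p ≠ 2)
    {g : Type v} [LieRing g] [LieAlgebra k g] (hR : Richardson k g)
    (c : g) (m : ℕ) (hc : ∀ x : g, (fun y : g => ⁅c, y⁆)^[m] x = 0) :
    ∃ f z : g, (∀ x : g, ⁅x, z⁆ = 0) ∧ c = ⁅c, ⁅c, f⁆⁆ + z := by
  obtain ⟨Y, i1, i2, i3, ρ, hρ, hinj, hnt, hs, R, hRc, hRs⟩ := hR
  let e := LinearEquiv.ofInjective ρ hinj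
  let π := Submodule.projectionOnto (LinearMap.range ρ) R hRc
  let φ : Module.End k Y →ₗ[k] g := e.symm.toLinearMap ∘ₗ π
  have hid : ∀ v, φ (ρ v) = v := by
    intro v
    have h1 : π (ρ v) = e v := by
      have := Submodule.projectionOnto_apply_left hRc (e v)
      exact this
    show e.symm (π (ρ v)) = v
    rw [h1, LinearEquiv.symm_apply_apply]
  have hker : ∀ r ∈ R, φ r = 0 := by
    intro r hr
    show e.symm (π r) = 0
    have : π r = 0 := (Submodule.projectionOnto_apply_eq_zero_iff hRc).2 hr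
    rw [this, map_zero]
  have hφ : ∀ x T, φ (ρ x * T - T * ρ x) = ⁅x, φ T⁆ := by
    intro x T
    have hT : T ∈ LinearMap.range ρ ⊔ R := by rw [hRc.sup_eq_top]; trivial
    obtain ⟨t, ⟨y, rfl⟩, r, hr, rfl⟩ := Submodule.mem_sup.1 hT
    have e1 : ρ x * (ρ y + r) - (ρ y + r) * ρ x = ρ ⁅x, y⁆ + (ρ x * r - r * ρ x) := by
      rw [hρ]; noncomm_ring
    rw [e1, map_add, map_add, hid, hid, hker _ (hRs x r hr), hker r hr, add_zero, add_zero]
  obtain ⟨l, hl⟩ := exists_nilpotent_shift p ρ hρ hs c m hc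
  obtain ⟨F, hF⟩ := exists_lowering _ hl
  have h2 : (2 : k) ≠ 0 := by
    intro h
    have h3 : ((2 : ℕ) : k) = 0 := by exact_mod_cast h
    have h4 := (CharP.cast_eq_zero_iff k p 2).1 h3
    exact hp2 ((Nat.prime_dvd_prime_iff_eq hp.1 Nat.prime_two).1 h4)
  have h5 : ρ c * (ρ c * F - F * ρ c) - (ρ c * F - F * ρ c) * ρ c
      = - ((2 : k) • (ρ c - l • (1 : Module.End k Y))) := by
    have h6 : (2 : k) • (ρ c - l • (1 : Module.End k Y)) = 2 * (ρ c - l • (1 : Module.End k Y)) := by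
      rw [two_smul, two_mul]
    rw [h6, ← hF]
    have h7 : ∀ T : Module.End k Y, ρ c * T - T * ρ c
        = (ρ c - l • (1 : Module.End k Y)) * T - T * (ρ c - l • (1 : Module.End k Y)) := by
      intro T
      simp [sub_mul, mul_sub]
    rw [h7, h7]
    generalize ρ c - l • (1 : Module.End k Y) = N
    noncomm_ring
  have h6 := congrArg φ h5
  rw [hφ, hφ, map_neg, map_smul, map_sub, map_smul, hid] at h6
  have hz : ∀ x : g, ⁅x, φ 1⁆ = 0 := by
    intro x
    rw [← hφ, mul_one, one_mul, sub_self, map_zero]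
  refine ⟨(-(2 : k)⁻¹) • φ F, l • φ 1, ?_, ?_⟩
  · intro x
    rw [lie_smul, hz, smul_zero]
  · rw [lie_smul, lie_smul, h6, smul_neg, neg_smul, neg_neg, smul_smul, inv_mul_cancel₀ h2,
      one_smul]
    abel

/-- The centre has dimension at most one. -/
theorem center_le_one [IsAlgClosed k] {g : Type v} [LieRing g] [LieAlgebra k g]
    (hR : Richardson k g) (z w : g) (hz : ∀ x : g, ⁅x, z⁆ = 0) (hw : ∀ x : g, ⁅x, w⁆ = 0)
    (hz0 : z ≠ 0) : ∃ c : k, w = c • z := by
  obtain ⟨Y, i1, i2, i3, ρ, hρ, hinj, hnt, hs, -⟩ := hR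
  have key : ∀ v : g, (∀ x : g, ⁅x, v⁆ = 0) → ∃ c : k, ρ v = c • 1 := by
    intro v hv
    apply schur_lemma (fun x => ρ x) hs
    intro x
    have := hρ x v
    rw [hv, map_zero] at this
    exact sub_eq_zero.1 this.symm
  obtain ⟨a, ha⟩ := key z hz
  obtain ⟨b, hb⟩ := key w hw
  have ha0 : a ≠ 0 := by
    rintro rfl
    rw [zero_smul] at ha
    exact hz0 (hinj (by rw [ha, map_zero]))
  refine ⟨b / a, hinj ?_⟩
  rw [map_smul, ha, hb, smul_smul, div_mul_cancel₀ _ ha0]

/-- Every solvable ideal is central. -/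
theorem solvable_le_center (p : ℕ) [hp : Fact p.Prime] [CharP k p] [IsAlgClosed k] (hp2 : p ≠ 2)
    {g : Type v} [LieRing g] [LieAlgebra k g] (hR : Richardson k g)
    (I : LieIdeal k g) (hI : LieAlgebra.IsSolvable I) : I ≤ LieAlgebra.center k g := by
  classical
  by_contra hcon
  have hex : ∃ n, LieAlgebra.derivedSeriesOfIdeal k g n I ≤ LieAlgebra.center k g := by
    obtain ⟨n, hn⟩ := hI.solvable k
    refine ⟨n, ?_⟩
    rw [(LieIdeal.derivedSeries_eq_bot_iff I n).1 hn]
    exact bot_le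
  obtain ⟨j, hj⟩ : ∃ j, Nat.find hex = j + 1 := by
    rcases h : Nat.find hex with _ | j
    · have := Nat.find_spec hex
      rw [h, LieAlgebra.derivedSeriesOfIdeal_zero] at this
      exact absurd this hcon
    · exact ⟨j, rfl⟩
  have h1 : ¬ LieAlgebra.derivedSeriesOfIdeal k g j I ≤ LieAlgebra.center k g :=
    Nat.find_min hex (by omega)
  have h2 : LieAlgebra.derivedSeriesOfIdeal k g (j + 1) I ≤ LieAlgebra.center k g := by
    rw [← hj]; exact Nat.find_spec hex
  rw [LieAlgebra.derivedSeriesOfIdeal_succ] at h2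
  obtain ⟨x, hx, hxc⟩ := SetLike.not_le_iff_exists.1 h1
  have h3 : ∀ y : g, ⁅x, ⁅x, y⁆⁆ ∈ LieAlgebra.center k g := by
    intro y
    apply h2
    exact LieSubmodule.lie_mem_lie hx (lie_mem_left k g _ x y hx)
  obtain ⟨f, z, hz, hxz⟩ := jacobson_morozov p hp2 hR x 3 (by
    intro y
    show ⁅x, ⁅x, ⁅x, y⁆⁆⁆ = 0
    exact (LieModule.mem_maxTrivSubmodule k g g _).1 (h3 y) x)
  apply hxc
  rw [hxz]
  exact (LieAlgebra.center k g).add_mem (h3 f) ((LieModule.mem_maxTrivSubmodule k g g _).2 hz)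

end main

/-- Let `p` be odd and let `g` have the Richardson property. Then every ad-nilpotent `c` lies in
`[c, [c, g]]` up to a central element, every sandwich element is central, the solvable radical is
the centre, and the centre has dimension at most one. -/
theorem result (p : ℕ) [Fact p.Prime] (hp2 : p ≠ 2) (k : Type u) [Field k] [IsAlgClosed k]
    [CharP k p] (g : Type v) [LieRing g] [LieAlgebra k g] [FiniteDimensional k g]
    (hR : Richardson k g) :
    (∀ c : g, IsNilpotent (LieAlgebra.ad k g c : Module.End k g) →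
      ∃ f : g, ∃ z ∈ LieAlgebra.center k g, c = ⁅c, ⁅c, f⁆⁆ + z) ∧
    (∀ c : g, (∀ x : g, ⁅c, ⁅c, x⁆⁆ = 0) → c ∈ LieAlgebra.center k g) ∧
    LieAlgebra.radical k g = LieAlgebra.center k g ∧
    finrank k (LieAlgebra.center k g) ≤ 1 := by
  have hmem : ∀ z : g, z ∈ LieAlgebra.center k g ↔ ∀ x : g, ⁅x, z⁆ = 0 := fun z =>
    LieModule.mem_maxTrivSubmodule k g g z
  refine ⟨?_, ?_, ?_, ?_⟩
  · intro c hc
    obtain ⟨m, hm⟩ := hc
    have h1 : ∀ (j : ℕ) (x : g), ((LieAlgebra.ad k g c : Module.End k g) ^ j) x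
        = (fun y : g => ⁅c, y⁆)^[j] x := by
      intro j x
      rw [Module.End.pow_apply]
      rfl
    obtain ⟨f, z, hz, h⟩ := jacobson_morozov p hp2 hR c m (fun x => by
      rw [← h1, hm]; rfl)
    exact ⟨f, z, (hmem z).2 hz, h⟩
  · intro c hc
    obtain ⟨f, z, hz, h⟩ := jacobson_morozov p hp2 hR c 2 (fun x => hc x)
    rw [hc, zero_add] at h
    rw [h]
    exact (hmem z).2 hz
  · apply le_antisymm
    · exact solvable_le_center p hp2 hR _ inferInstance
    · exact LieAlgebra.center_le_radical k g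
  · by_cases hb : ∃ z ∈ LieAlgebra.center k g, z ≠ 0
    · obtain ⟨z, hz, hz0⟩ := hb
      refine finrank_le_one (⟨z, hz⟩ : LieAlgebra.center k g) ?_
      rintro ⟨w, hw⟩
      obtain ⟨c, hc⟩ := center_le_one hR z w ((hmem z).1 hz) ((hmem w).1 hw) hz0
      exact ⟨c, Subtype.ext hc.symm⟩
    · push Not at hb
      refine finrank_le_one (0 : LieAlgebra.center k g) ?_
      rintro ⟨w, hw⟩
      exact ⟨0, Subtype.ext (by simp [hb w hw])⟩

end Pool.Agent.Results.MP_3a0263_al.Sandwich
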